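import Pool.Agent.Helper20.EP.Spec3

/-! helper3: part SUBI of swarm EP -/

set_option autoImplicit false

open Polynomial

namespace Pool.Agent.Helper3.EP

open Pool.Agent.Helper20.EP

/-- well spaced elements of a finite set of natural numbers -/
theorem spaced (A : Finset ℕ) (d k : ℕ) (h : d * k < A.card) :
    ∃ b : ℕ → ℕ, (∀ i, i ≤ d → b i ∈ A) ∧ ∀ i j, i < j → j ≤ d → b i + k ≤ b j := by
  set e := A.orderEmbOfFin rfl with he
  have step : ∀ m i (hi : i + m < A.card), (e ⟨i, by omega⟩ : ℕ) + m ≤ e ⟨i + m, hi⟩ := by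
    intro m
    induction m with
    | zero => intro i hi; simp
    | succ m ih =>
      intro i hi
      have h1 := ih i (by omega)
      have h2 : e ⟨i + m, by omega⟩ < e ⟨i + (m + 1), hi⟩ := by
        apply e.strictMono
        simp [Fin.lt_def]
      omega
  have hpos : 0 < A.card := by omega
  refine ⟨fun i => if hi : i * k < A.card then e ⟨i * k, hi⟩ else 0, ?_, ?_⟩
  · intro i hi
    have : i * k < A.card := lt_of_le_of_lt (Nat.mul_le_mul_right k hi) h
    simp only [this, dif_pos]
    exact Finset.orderEmbOfFin_mem A rfl _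
  · intro i j hij hj
    have hi1 : i * k < A.card := lt_of_le_of_lt (Nat.mul_le_mul_right k (by omega : i ≤ d)) h
    have hj1 : j * k < A.card := lt_of_le_of_lt (Nat.mul_le_mul_right k hj) h
    simp only [hi1, hj1, dif_pos]
    have hjk : j * k = i * k + (j - i) * k := by
      rw [← Nat.add_mul]; congr 1; omega
    have h1 := step ((j - i) * k) (i * k) (by rw [← hjk]; exact hj1)
    have h2 : k ≤ (j - i) * k := Nat.le_mul_of_pos_left k (by omega)
    have h3 : (e ⟨i * k + (j - i) * k, by rw [← hjk]; exact hj1⟩ : ℕ) = e ⟨j * k, hj1⟩ := by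
      congr 2
      exact hjk.symm
    rw [h3] at h1
    omega

theorem coeff_prod_bound (N : ℝ) (hN : 0 ≤ N) {ι : Type} (S : Finset ι) (y : ι → ℝ)
    (hy : ∀ i ∈ S, |y i| ≤ N) : ∀ j : ℕ, |(∏ i ∈ S, (X - C (y i))).coeff j| * N ^ j ≤
      (2 * N) ^ S.card := by
  classical
  induction S using Finset.induction_on with
  | empty =>
    intro j
    rcases Nat.eq_zero_or_pos j with h | h
    · subst h; simp
    · rw [Finset.prod_empty, coeff_one, if_neg (by omega)]
      simp
  | insert a S ha ih =>
    intro j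
    rw [Finset.prod_insert ha, Finset.card_insert_of_notMem ha, pow_succ]
    have ih' := ih (fun i hi => hy i (Finset.mem_insert_of_mem hi))
    have hya := hy a (Finset.mem_insert_self _ _)
    set P := ∏ i ∈ S, (X - C (y i)) with hP
    have hB : 0 ≤ (2 * N) ^ S.card := by positivity
    rw [sub_mul, coeff_sub, coeff_C_mul]
    have h1 : |(X * P).coeff j| * N ^ j ≤ N * (2 * N) ^ S.card := by
      cases j with
      | zero => simp; positivity
      | succ j =>
        rw [coeff_X_mul, pow_succ]
        have := ih' j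
        calc |P.coeff j| * (N ^ j * N) = N * (|P.coeff j| * N ^ j) := by ring
          _ ≤ N * (2 * N) ^ S.card := by gcongr
    have h2 : |y a * P.coeff j| * N ^ j ≤ N * (2 * N) ^ S.card := by
      rw [abs_mul]
      calc |y a| * |P.coeff j| * N ^ j = |y a| * (|P.coeff j| * N ^ j) := by ring
        _ ≤ N * (2 * N) ^ S.card := by
          apply mul_le_mul hya (ih' j) (by positivity) hN
    calc |(X * P).coeff j - y a * P.coeff j| * N ^ j
        ≤ (|(X * P).coeff j| + |y a * P.coeff j|) * N ^ j := by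
          gcongr; exact abs_sub _ _
      _ = |(X * P).coeff j| * N ^ j + |y a * P.coeff j| * N ^ j := by ring
      _ ≤ N * (2 * N) ^ S.card + N * (2 * N) ^ S.card := add_le_add h1 h2
      _ = (2 * N) ^ S.card * (2 * N) := by ring

theorem main : S_SUBI := by
  intro d
  refine ⟨1 / (2 * ((d : ℝ) + 1) * (2 * ((d : ℝ) + 1)) ^ d), d + 2, by positivity, ?_⟩
  intro θ N T hdeg hN hT ⟨j₀, hj₀⟩ l τ hτ hτ1 hl
  classical
  by_contra hcon
  push_neg at hcon
  unfold cnt at hcon
  set A := (Finset.Icc 1 N).filter (fun n : ℕ => |θ.eval (n : ℝ)| ≤ l) with hA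
  have hcon' : τ * N + (d + 2) < (A.card : ℝ) := by
    convert hcon using 2
  have hNr : (1 : ℝ) ≤ N := by exact_mod_cast hN
  have hN0 : (0 : ℝ) < N := by linarith
  -- the gap
  set k := (A.card - 1) / (d + 1) with hk
  have hA1 : 1 ≤ A.card := by
    have : (0 : ℝ) < A.card := by
      have : 0 ≤ τ * N := by positivity
      linarith [Nat.cast_nonneg (α := ℝ) d]
    exact_mod_cast this
  have hkd : d * k < A.card := by
    have h1 : (d + 1) * k ≤ A.card - 1 := Nat.mul_div_le _ _
    have h2 : d * k ≤ (d + 1) * k := Nat.mul_le_mul_right _ (by omega)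
    omega
  have hkr : τ * N / (d + 1) ≤ (k : ℝ) := by
    have h1 : A.card - 1 < (d + 1) * (k + 1) := by
      have := Nat.lt_mul_div_succ (A.card - 1) (b := d + 1) (by omega)
      simpa [hk] using this
    have h2 : (A.card : ℝ) - 1 < (d + 1) * (k + 1) := by
      have : ((A.card - 1 : ℕ) : ℝ) < (((d + 1) * (k + 1) : ℕ) : ℝ) := by exact_mod_cast h1
      rw [Nat.cast_sub hA1] at this
      push_cast at this
      linarith
    rw [div_le_iff₀ (by positivity)]
    nlinarith
  have hk0 : (0 : ℝ) < k := lt_of_lt_of_le (by positivity) hkr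
  obtain ⟨b, hb1, hb2⟩ := spaced A d k hkd
  have hl0 : 0 ≤ l := by
    have := hb1 0 (by omega)
    rw [hA, Finset.mem_filter] at this
    exact le_trans (abs_nonneg _) this.2
  -- interpolation
  set S := Finset.range (d + 1) with hS
  set v : ℕ → ℝ := fun i => (b i : ℝ) with hv
  have hsep : ∀ i ∈ S, ∀ m ∈ S, i ≠ m → (k : ℝ) ≤ |v i - v m| := by
    intro i hi m hm him
    rw [hS, Finset.mem_range] at hi hm
    rcases lt_or_gt_of_ne him with h | h
    · have := hb2 i m h (by omega)
      have h' : (b i : ℝ) + k ≤ b m := by exact_mod_cast this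
      rw [abs_sub_comm]
      exact le_trans (by simp only [hv]; linarith) (le_abs_self _)
    · have := hb2 m i h (by omega)
      have h' : (b m : ℝ) + k ≤ b i := by exact_mod_cast this
      exact le_trans (by simp only [hv]; linarith) (le_abs_self _)
  have hinj : Set.InjOn v S := by
    intro i hi m hm him
    by_contra hne
    have := hsep i hi m hm hne
    rw [him, sub_self, abs_zero] at this
    linarith
  have hdeg' : θ.degree < (S.card : ℕ) := by
    rw [hS, Finset.card_range]
    refine lt_of_le_of_lt degree_le_natDegree ?_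
    exact_mod_cast Nat.lt_succ_of_le hdeg
  have hint := Lagrange.eq_interpolate hinj hdeg'
  rw [Lagrange.interpolate_apply] at hint
  have hvN : ∀ i ∈ S, |v i| ≤ N := by
    intro i hi
    rw [hS, Finset.mem_range] at hi
    have := hb1 i (by omega)
    rw [hA, Finset.mem_filter, Finset.mem_Icc] at this
    simp only [hv]
    rw [abs_of_nonneg (by positivity)]
    exact_mod_cast this.1.2
  have hval : ∀ i ∈ S, |θ.eval (v i)| ≤ l := by
    intro i hi
    rw [hS, Finset.mem_range] at hi
    have := hb1 i (by omega)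
    rw [hA, Finset.mem_filter] at this
    exact this.2
  have hbasis : ∀ i ∈ S, |(Lagrange.basis S v i).coeff j₀| * (N : ℝ) ^ j₀ ≤
      (2 * N / k) ^ d := by
    intro i hi
    have e1 : Lagrange.basis S v i = C (∏ m ∈ S.erase i, (v i - v m)⁻¹) *
        ∏ m ∈ S.erase i, (X - C (v m)) := by
      unfold Lagrange.basis
      rw [map_prod, ← Finset.prod_mul_distrib]
      rfl
    have hcard : (S.erase i).card = d := by
      rw [Finset.card_erase_of_mem hi, hS, Finset.card_range]; rfl
    rw [e1, coeff_C_mul, abs_mul, mul_assoc]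
    have h1 := coeff_prod_bound (N : ℝ) hN0.le (S.erase i) v
      (fun m hm => hvN m (Finset.mem_of_mem_erase hm)) j₀
    rw [hcard] at h1
    have h2 : |∏ m ∈ S.erase i, (v i - v m)⁻¹| ≤ ((k : ℝ)⁻¹) ^ d := by
      rw [Finset.abs_prod]
      calc ∏ m ∈ S.erase i, |(v i - v m)⁻¹| ≤ ∏ _m ∈ S.erase i, (k : ℝ)⁻¹ := by
            apply Finset.prod_le_prod
            · intro m _; exact abs_nonneg _
            · intro m hm
              rw [abs_inv]
              apply inv_anti₀ hk0
              exact hsep i hi m (Finset.mem_of_mem_erase hm) (Finset.ne_of_mem_erase hm).symm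
        _ = ((k : ℝ)⁻¹) ^ d := by rw [Finset.prod_const, hcard]
    calc |∏ m ∈ S.erase i, (v i - v m)⁻¹| *
          (|(∏ m ∈ S.erase i, (X - C (v m))).coeff j₀| * (N : ℝ) ^ j₀)
        ≤ ((k : ℝ)⁻¹) ^ d * (2 * N) ^ d := by
          apply mul_le_mul h2 h1 (by positivity) (by positivity)
      _ = (2 * N / k) ^ d := by rw [← mul_pow]; congr 1; field_simp
  have hcoef : θ.coeff j₀ = ∑ i ∈ S, θ.eval (v i) * (Lagrange.basis S v i).coeff j₀ := by
    conv_lhs => rw [hint]
    rw [finset_sum_coeff]
    apply Finset.sum_congr rfl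
    intro i _
    rw [coeff_C_mul]
  have hbound : |θ.coeff j₀| * (N : ℝ) ^ j₀ ≤ (d + 1) * (l * (2 * N / k) ^ d) := by
    rw [hcoef]
    calc |∑ i ∈ S, θ.eval (v i) * (Lagrange.basis S v i).coeff j₀| * (N : ℝ) ^ j₀
        ≤ (∑ i ∈ S, |θ.eval (v i) * (Lagrange.basis S v i).coeff j₀|) * (N : ℝ) ^ j₀ := by
          gcongr; exact Finset.abs_sum_le_sum_abs _ _
      _ = ∑ i ∈ S, |θ.eval (v i)| * (|(Lagrange.basis S v i).coeff j₀| * (N : ℝ) ^ j₀) := by
          rw [Finset.sum_mul]
          apply Finset.sum_congr rfl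
          intro i _
          rw [abs_mul]; ring
      _ ≤ ∑ _i ∈ S, l * (2 * N / k) ^ d := by
          apply Finset.sum_le_sum
          intro i hi
          exact mul_le_mul (hval i hi) (hbasis i hi) (by positivity) hl0
      _ = (d + 1) * (l * (2 * N / k) ^ d) := by
          rw [Finset.sum_const, hS, Finset.card_range, nsmul_eq_mul]
          push_cast; ring
  have hfrac : 2 * (N : ℝ) / k ≤ 2 * (d + 1) / τ := by
    rw [div_le_div_iff₀ hk0 hτ]
    rw [div_le_iff₀ (by positivity)] at hkr
    nlinarith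
  have hpow : (2 * (N : ℝ) / k) ^ d ≤ (2 * (d + 1) / τ) ^ d := by
    apply pow_le_pow_left₀ (by positivity) hfrac
  have hτd : 0 < τ ^ d := by positivity
  have hfinal : (d + 1 : ℝ) * (l * (2 * N / k) ^ d) ≤ T / 2 := by
    have hE : (0 : ℝ) < (2 * ((d : ℝ) + 1)) ^ d := by positivity
    calc (d + 1 : ℝ) * (l * (2 * N / k) ^ d) ≤ (d + 1) * (l * (2 * (d + 1) / τ) ^ d) := by
          gcongr
      _ ≤ (d + 1) * ((1 / (2 * ((d : ℝ) + 1) * (2 * ((d : ℝ) + 1)) ^ d) * τ ^ d * T) *
            (2 * (d + 1) / τ) ^ d) := by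
          gcongr
      _ = T / 2 := by
          rw [div_pow]
          field_simp
  linarith

end Pool.Agent.Helper3.EP
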