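import Pool.Agent.Helper3.EP.SUBI

/-! helper3: part SUBU of swarm EP -/

set_option autoImplicit false

open Polynomial

namespace Pool.Agent.Helper3.EP.SUBU

open Pool.Agent.Helper20.EP

/-- points where the derivative is large and the values are in an interval of length one -/
theorem few_points (d : ℕ) (P : ℝ[X]) (hP : P.natDegree ≤ d) (hd : 1 ≤ d) (δ : ℝ) (hδ : 0 < δ)
    (A : Finset ℕ) (h1 : ∀ a ∈ A, ∀ b ∈ A, P.eval (b : ℝ) - P.eval (a : ℝ) ≤ 1)
    (h2 : ∀ a ∈ A, δ < P.derivative.eval (a : ℝ)) : (A.card : ℝ) ≤ d * (1 / δ + 1) := by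
  by_contra hcon
  push Not at hcon
  set k := ⌊1 / δ⌋₊ + 1 with hk
  have hkδ : 1 / δ < k := by
    rw [hk]; push_cast; exact Nat.lt_floor_add_one _
  have hkle : (k : ℝ) ≤ 1 / δ + 1 := by
    rw [hk]; push_cast
    have := Nat.floor_le (a := 1 / δ) (by positivity)
    linarith
  have hcard : d * k < A.card := by
    have : ((d * k : ℕ) : ℝ) < A.card := by
      push_cast
      calc (d : ℝ) * k ≤ d * (1 / δ + 1) := by gcongr
        _ < A.card := hcon
    exact_mod_cast this
  obtain ⟨b, hb1, hb2⟩ := Pool.Agent.Helper3.EP.spaced A d k hcard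
  -- roots of P' - δ
  have hroot : ∀ i, i < d → ∃ r : ℝ, (b i : ℝ) < r ∧ r < b (i + 1) ∧
      (P.derivative - C δ).eval r = 0 := by
    intro i hi
    have hlt : (b i : ℝ) + k ≤ b (i + 1) := by exact_mod_cast hb2 i (i + 1) (by omega) (by omega)
    have hk0 : (0 : ℝ) < k := lt_trans (by positivity) hkδ
    have hab : (b i : ℝ) < b (i + 1) := by linarith
    obtain ⟨ξ, hξ, hξ'⟩ := exists_hasDerivAt_eq_slope (fun x => P.eval x)
      (fun x => P.derivative.eval x) hab P.continuous.continuousOn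
      (fun x _ => P.hasDerivAt x)
    have hgap : 1 / δ < (b (i + 1) : ℝ) - b i := by linarith
    have hpos : 0 < (b (i + 1) : ℝ) - b i := by linarith
    have hval := h1 (b i) (hb1 i (by omega)) (b (i + 1)) (hb1 (i + 1) (by omega))
    have hlt2 : P.derivative.eval ξ < δ := by
      rw [hξ', div_lt_iff₀ hpos]
      have : 1 < δ * ((b (i + 1) : ℝ) - b i) := by
        rw [div_lt_iff₀ hδ] at hgap
        linarith
      linarith
    have hb := h2 (b i) (hb1 i (by omega))
    have hcont : ContinuousOn (fun x => (P.derivative - C δ).eval x) (Set.Icc (b i : ℝ) ξ) :=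
      (P.derivative - C δ).continuous.continuousOn
    have hivt := intermediate_value_Ioo' hξ.1.le hcont
    have hmem : (0 : ℝ) ∈ Set.Ioo ((P.derivative - C δ).eval ξ)
        ((P.derivative - C δ).eval (b i : ℝ)) := by
      constructor
      · simp; exact hlt2
      · simp; exact hb
    obtain ⟨r, hr, hr0⟩ := hivt hmem
    exact ⟨r, hr.1, lt_trans hr.2 hξ.2, hr0⟩
  choose! r hr1 hr2 hr3 using hroot
  have hQ : P.derivative - C δ ≠ 0 := by
    intro h0
    have := h2 (b 0) (hb1 0 (by omega))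
    have h3 : (P.derivative - C δ).eval (b 0 : ℝ) = 0 := by rw [h0]; simp
    simp at h3
    linarith
  have hmono : ∀ i j, i < j → j < d → r i < r j := by
    intro i j hij hj
    have h3 : (b (i + 1) : ℝ) ≤ b j := by
      rcases Nat.lt_or_ge (i + 1) j with h | h
      · have := hb2 (i + 1) j h (by omega)
        have : b (i + 1) ≤ b j := by omega
        exact_mod_cast this
      · have : i + 1 = j := by omega
        rw [this]
    have := hr2 i (by omega)
    have := hr1 j hj
    linarith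
  have hinj : Set.InjOn r (Finset.range d : Finset ℕ) := by
    intro i hi j hj hij
    simp only [Finset.coe_range, Set.mem_Iio] at hi hj
    rcases lt_trichotomy i j with h | h | h
    · have := hmono i j h hj; linarith
    · exact h
    · have := hmono j i h hi; linarith
  have hsub : (Finset.range d).image r ⊆ (P.derivative - C δ).roots.toFinset := by
    intro x hx
    rw [Finset.mem_image] at hx
    obtain ⟨i, hi, rfl⟩ := hx
    rw [Finset.mem_range] at hi
    rw [Multiset.mem_toFinset, mem_roots hQ]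
    exact hr3 i hi
  have hc1 : d ≤ (P.derivative - C δ).natDegree := by
    calc d = ((Finset.range d).image r).card := by
          rw [Finset.card_image_of_injOn hinj, Finset.card_range]
      _ ≤ (P.derivative - C δ).roots.toFinset.card := Finset.card_le_card hsub
      _ ≤ Multiset.card (P.derivative - C δ).roots := Multiset.toFinset_card_le _
      _ ≤ (P.derivative - C δ).natDegree := card_roots' _
  have hc2 : (P.derivative - C δ).natDegree ≤ d - 1 := by
    refine le_trans (natDegree_sub_le _ _) ?_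
    rw [natDegree_C]
    simp only [Nat.max_zero]
    exact le_trans (natDegree_derivative_le P) (by omega)
  omega

theorem main (hS : S_SUBI) : S_SUBU := by
  intro d hd
  obtain ⟨c, C₁, hc, hC₁⟩ := hS (d - 1)
  refine ⟨1 + |C₁| + 2 * d * (1 + 1 / c), by positivity, ?_⟩
  intro θ N T hdeg hN hT ⟨j₀, hj₀, hcj⟩ U τ hτ hτ1
  classical
  have hNr : (1 : ℝ) ≤ N := by exact_mod_cast hN
  have hN0 : (0 : ℝ) < N := by linarith
  set δ : ℝ := c * τ ^ (d - 1) * (T / N) with hδ
  have hδ0 : 0 < δ := by positivity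
  -- the small derivative
  have h0 : cnt N (fun n => |θ.derivative.eval (n : ℝ)| ≤ δ) ≤ τ * N + C₁ := by
    refine hC₁ θ.derivative N (T / N) ?_ hN (by positivity) ⟨j₀ - 1, ?_⟩ δ τ hτ hτ1 le_rfl
    · exact le_trans (natDegree_derivative_le θ) (by omega)
    · rw [coeff_derivative, show j₀ - 1 + 1 = j₀ by omega]
      rw [div_le_iff₀ hN0, mul_assoc, ← pow_succ, show j₀ - 1 + 1 = j₀ by omega, abs_mul]
      have h3 : (1 : ℝ) ≤ |((j₀ - 1 : ℕ) : ℝ) + 1| := by
        rw [abs_of_nonneg (by positivity)]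
        have : (0 : ℝ) ≤ ((j₀ - 1 : ℕ) : ℝ) := Nat.cast_nonneg _
        linarith
      calc T ≤ |θ.coeff j₀| * (N : ℝ) ^ j₀ := hcj
        _ ≤ |θ.coeff j₀| * |((j₀ - 1 : ℕ) : ℝ) + 1| * (N : ℝ) ^ j₀ := by
          have : |θ.coeff j₀| ≤ |θ.coeff j₀| * |((j₀ - 1 : ℕ) : ℝ) + 1| :=
            le_mul_of_one_le_right (abs_nonneg _) h3
          gcongr
  -- the sets
  set Z := (Finset.Icc 1 N).filter (fun n : ℕ => |θ.derivative.eval (n : ℝ)| ≤ δ) with hZ
  set Ap : ℤ → Finset ℕ := fun u => (Finset.Icc 1 N).filter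
    (fun n : ℕ => ⌊θ.eval (n : ℝ)⌋ = u ∧ δ < θ.derivative.eval (n : ℝ)) with hAp
  set Am : ℤ → Finset ℕ := fun u => (Finset.Icc 1 N).filter
    (fun n : ℕ => ⌊θ.eval (n : ℝ)⌋ = u ∧ θ.derivative.eval (n : ℝ) < -δ) with hAm
  have hZc : (Z.card : ℝ) ≤ τ * N + C₁ := by
    unfold cnt at h0
    convert h0 using 2
  have hcover : (Finset.Icc 1 N).filter (fun n : ℕ => ⌊θ.eval (n : ℝ)⌋ ∈ U) ⊆
      Z ∪ (U.biUnion Ap ∪ U.biUnion Am) := by
    intro n hn
    rw [Finset.mem_filter] at hn
    rw [Finset.mem_union, Finset.mem_union, Finset.mem_biUnion, Finset.mem_biUnion]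
    by_cases h : |θ.derivative.eval (n : ℝ)| ≤ δ
    · left; rw [hZ, Finset.mem_filter]; exact ⟨hn.1, h⟩
    · right
      push Not at h
      rcases lt_abs.1 h with h | h
      · left
        exact ⟨_, hn.2, by rw [hAp, Finset.mem_filter]; exact ⟨hn.1, rfl, h⟩⟩
      · right
        exact ⟨_, hn.2, by rw [hAm, Finset.mem_filter]; exact ⟨hn.1, rfl, by linarith⟩⟩
  have hfl : ∀ (u : ℤ) (a b : ℕ), ⌊θ.eval (a : ℝ)⌋ = u → ⌊θ.eval (b : ℝ)⌋ = u →
      θ.eval (b : ℝ) - θ.eval (a : ℝ) ≤ 1 := by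
    intro u a b ha hb
    have h3 := Int.floor_le (θ.eval (a : ℝ))
    have h4 := Int.lt_floor_add_one (θ.eval (b : ℝ))
    rw [ha] at h3
    rw [hb] at h4
    linarith
  have hApc : ∀ u ∈ U, ((Ap u).card : ℝ) ≤ d * (1 / δ + 1) := by
    intro u _
    apply few_points d θ hdeg hd δ hδ0
    · intro a ha b hb
      rw [hAp, Finset.mem_filter] at ha hb
      exact hfl u a b ha.2.1 hb.2.1
    · intro a ha
      rw [hAp, Finset.mem_filter] at ha
      exact ha.2.2
  have hAmc : ∀ u ∈ U, ((Am u).card : ℝ) ≤ d * (1 / δ + 1) := by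
    intro u _
    apply few_points d (-θ) (by rw [natDegree_neg]; exact hdeg) hd δ hδ0
    · intro a ha b hb
      rw [hAm, Finset.mem_filter] at ha hb
      have := hfl u b a hb.2.1 ha.2.1
      simp only [eval_neg]
      linarith
    · intro a ha
      rw [hAm, Finset.mem_filter] at ha
      simp only [derivative_neg, eval_neg]
      linarith [ha.2.2]
  have hcnt : cnt N (fun n => ⌊θ.eval (n : ℝ)⌋ ∈ U) ≤
      (τ * N + C₁) + (U.card * (d * (1 / δ + 1)) + U.card * (d * (1 / δ + 1))) := by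
    unfold cnt
    have e : (((Finset.Icc 1 N).filter (fun n : ℕ => ⌊θ.eval (n : ℝ)⌋ ∈ U)).card : ℝ) ≤
        (Z.card : ℝ) + ((∑ u ∈ U, ((Ap u).card : ℝ)) + ∑ u ∈ U, ((Am u).card : ℝ)) := by
      have h3 := Finset.card_le_card hcover
      have h4 := Finset.card_union_le Z (U.biUnion Ap ∪ U.biUnion Am)
      have h5 := Finset.card_union_le (U.biUnion Ap) (U.biUnion Am)
      have h6 : (U.biUnion Ap).card ≤ ∑ u ∈ U, (Ap u).card := Finset.card_biUnion_le
      have h7 : (U.biUnion Am).card ≤ ∑ u ∈ U, (Am u).card := Finset.card_biUnion_le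
      have h8 : ((Finset.Icc 1 N).filter (fun n : ℕ => ⌊θ.eval (n : ℝ)⌋ ∈ U)).card ≤
          Z.card + ((∑ u ∈ U, (Ap u).card) + ∑ u ∈ U, (Am u).card) := by omega
      exact_mod_cast h8
    refine le_trans (le_of_eq ?_) (le_trans e ?_)
    · congr!
    · refine add_le_add hZc (add_le_add ?_ ?_)
      · calc ∑ u ∈ U, ((Ap u).card : ℝ) ≤ ∑ _u ∈ U, (d * (1 / δ + 1) : ℝ) :=
              Finset.sum_le_sum hApc
          _ = U.card * (d * (1 / δ + 1)) := by rw [Finset.sum_const, nsmul_eq_mul]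
      · calc ∑ u ∈ U, ((Am u).card : ℝ) ≤ ∑ _u ∈ U, (d * (1 / δ + 1) : ℝ) :=
              Finset.sum_le_sum hAmc
          _ = U.card * (d * (1 / δ + 1)) := by rw [Finset.sum_const, nsmul_eq_mul]
  have hinv : 1 / δ = (1 / c) * (N / (T * τ ^ (d - 1))) := by
    rw [hδ]; field_simp
  set Y : ℝ := N / (T * τ ^ (d - 1)) with hY
  have hY0 : 0 ≤ Y := by positivity
  refine le_trans hcnt ?_
  rw [hinv]
  have hc' : 0 < 1 / c := by positivity
  have hU : (0 : ℝ) ≤ U.card := Nat.cast_nonneg _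
  have hdr : (0 : ℝ) ≤ d := Nat.cast_nonneg _
  have hC1 : C₁ ≤ |C₁| := le_abs_self _
  have hC10 : 0 ≤ |C₁| := abs_nonneg _
  have hτN : 0 ≤ τ * N := by positivity
  set E : ℝ := 1 / c with hE
  have k1 : (1 + |C₁| + 2 * d * (1 + E)) * (τ * N + 1 + U.card * (1 + Y)) =
      (τ * N) + |C₁| * 1 + (1 + (|C₁| + 2 * d * (1 + E)) * (τ * N) + 2 * d * (1 + E) +
        (1 + |C₁|) * (U.card * (1 + Y))) + 2 * d * (1 + E) * (U.card * (1 + Y)) := by ring
  rw [k1]
  have k2 : (U.card : ℝ) * (d * (E * Y + 1)) + U.card * (d * (E * Y + 1)) ≤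
      2 * d * (1 + E) * (U.card * (1 + Y)) := by
    have : 0 ≤ (d : ℝ) * U.card * (Y + E) := by positivity
    nlinarith
  have k3 : 0 ≤ (1 + (|C₁| + 2 * d * (1 + E)) * (τ * N) + 2 * d * (1 + E) +
        (1 + |C₁|) * (U.card * (1 + Y))) := by positivity
  linarith

end Pool.Agent.Helper3.EP.SUBU
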